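import Pool.Agent.H47.HopfInt

/-!
# MP_c848f8_an, Q1

A counterexample with values in the Hopf surface `(ℂ² ∖ 0)/(v ~ 2v)`, `n = 2`, `k = 1`.
-/

set_option autoImplicit false

open Set Filter Topology MeasureTheory Metric Pool.Agent.V1172.Radial Pool.Agent.V1172.GVol
open Pool.Agent.H47.HopfInt

open scoped ENNReal

namespace Pool.Agent.Results.MP_c848f8_an.HopfSlices

/-- The polydisc `Δ^m`. -/
def polydisc (m : ℕ) : Set (Fin m → ℂ) := {z | ∀ i, ‖z i‖ < 1}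

/-- The polydisc shell `A^m(r,1)`: the polydisc `Δ^m` minus the closed polydisc of radius `r`. -/
def shell (m : ℕ) (r : ℝ) : Set (Fin m → ℂ) := {z | (∀ i, ‖z i‖ < 1) ∧ ¬ ∀ i, ‖z i‖ ≤ r}

/-- The Hermitian metric `∑ |dv_l|² / ∑ |v_l|²` of `ℂ^q ∖ 0`, as a Hermitian matrix. It is
invariant under `v ↦ 2v`, and the corresponding form `ω` lives on the Hopf manifold
`(ℂ^q ∖ 0)/(v ~ 2v)`. -/
noncomputable def hopfMatrix {q : ℕ} (v : Fin q → ℂ) : Matrix (Fin q) (Fin q) ℂ :=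
  ((1 / ∑ l, Complex.normSq (v l) : ℝ) : ℂ) • (1 : Matrix (Fin q) (Fin q) ℂ)

/-- The complex Jacobian matrix. -/
noncomputable def jac {m q : ℕ} (f : (Fin m → ℂ) → (Fin q → ℂ)) (z : Fin m → ℂ) :
    Matrix (Fin q) (Fin m) ℂ :=
  Matrix.of fun i j => fderiv ℂ f z (Pi.single j 1) i

/-- The Hermitian matrix of `f^* ω`. -/
noncomputable def pullback {m q : ℕ} (f : (Fin m → ℂ) → (Fin q → ℂ)) (z : Fin m → ℂ) :
    Matrix (Fin m) (Fin m) ℂ :=
  (jac f z).transpose * hopfMatrix (f z) * (jac f z).map (starRingEnd ℂ)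

/-- The volume `∫_D (dd^c ‖z‖² + f^* ω)^m` of the part over `D` of the graph of the holomorphic map
`D → X` with lift `f : D → ℂ^q ∖ 0`, where `dd^c = (i/2) ∂∂̄`: the form `(dd^c ‖z‖² + f^* ω)^m` is
`m! det (1 + pullback f z)` times the Lebesgue measure. -/
noncomputable def graphVol {m q : ℕ} (f : (Fin m → ℂ) → (Fin q → ℂ)) (D : Set (Fin m → ℂ)) :
    ℝ≥0∞ :=
  m.factorial * ∫⁻ z in D, ENNReal.ofReal (1 + pullback f z).det.re

/-- The restriction of `f` to the disc `{z} × Δ^k`. -/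
def slice {j k q : ℕ} (f : (Fin (j + k) → ℂ) → (Fin q → ℂ)) (z : Fin j → ℂ) :
    (Fin k → ℂ) → (Fin q → ℂ) := fun w => f (Fin.append z w)

/-- `f` is the lift to `ℂ^q ∖ 0` of a holomorphic map `Δ^(j+k) → X = (ℂ^q ∖ 0)/(v ~ 2v)` in the
class `F_R` of the problem, with `n = j + k`. -/
def InClass (j k q : ℕ) (r : ℝ) (R : ℝ≥0∞) (f : (Fin (j + k) → ℂ) → (Fin q → ℂ)) : Prop :=
  DifferentiableOn ℂ f (polydisc (j + k)) ∧ (∀ z ∈ polydisc (j + k), f z ≠ 0) ∧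
    graphVol f (shell (j + k) r) ≤ R ∧ ∀ z ∈ polydisc j, graphVol (slice f z) (shell k r) ≤ R

/-- `u = 1 - ρ ζ` with `ρ = 1 - ε` -/
noncomputable def u (ε : ℝ) (ζ : ℂ) : ℂ := 1 - ((1 - ε : ℝ) : ℂ) * ζ

/-- `φ = (1 - ρ ζ)^c` -/
noncomputable def φ (c ε : ℝ) (ζ : ℂ) : ℂ := Complex.exp ((c : ℂ) * Complex.log (u ε ζ))

/-- The maps of the counterexample. -/
noncomputable def fm (c ε : ℝ) : (Fin 2 → ℂ) → (Fin 2 → ℂ) :=
  fun z => ![z 1, φ c ε (z 0)]

/-- `|φ|²` -/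
noncomputable def b (c ε : ℝ) (ζ : ℂ) : ℝ := Real.exp (2 * c * Real.log ‖u ε ζ‖)

/-- `|φ'|²` -/
noncomputable def p (c ε : ℝ) (ζ : ℂ) : ℝ := c ^ 2 * (1 - ε) ^ 2 * b c ε ζ / ‖u ε ζ‖ ^ 2

/-- the volume density -/
noncomputable def T (c ε : ℝ) (ζ w : ℂ) : ℝ :=
  (1 + 1 / (‖w‖ ^ 2 + b c ε ζ)) * (1 + p c ε ζ / (‖w‖ ^ 2 + b c ε ζ))

theorem b_pos (c ε : ℝ) (ζ : ℂ) : 0 < b c ε ζ := Real.exp_pos _

theorem p_nonneg (c ε : ℝ) (ζ : ℂ) : 0 ≤ p c ε ζ := by
  have := b_pos c ε ζ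
  unfold p
  positivity

theorem u_re_pos {ε : ℝ} (hε0 : 0 < ε) (hε1 : ε < 1) {ζ : ℂ} (hζ : ‖ζ‖ < 1) :
    0 < (u ε ζ).re := by
  have h1 : |ζ.re| ≤ ‖ζ‖ := Complex.abs_re_le_norm ζ
  have h2 := (abs_le.1 h1).2
  have h3 : (u ε ζ).re = 1 - (1 - ε) * ζ.re := by
    simp [u]
  rw [h3]
  nlinarith

theorem u_slit {ε : ℝ} (hε0 : 0 < ε) (hε1 : ε < 1) {ζ : ℂ} (hζ : ‖ζ‖ < 1) :
    u ε ζ ∈ Complex.slitPlane := Or.inl (u_re_pos hε0 hε1 hζ)

theorem φ_norm (c ε : ℝ) (ζ : ℂ) : Complex.normSq (φ c ε ζ) = b c ε ζ := by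
  rw [Complex.normSq_eq_norm_sq, φ, Complex.norm_exp, b, ← Real.exp_nat_mul]
  congr 1
  have : ((c : ℂ) * Complex.log (u ε ζ)).re = c * Real.log ‖u ε ζ‖ := by
    rw [Complex.re_ofReal_mul, Complex.log_re]
  rw [this]
  push_cast
  ring

theorem φ_ne (c ε : ℝ) (ζ : ℂ) : φ c ε ζ ≠ 0 := Complex.exp_ne_zero _

/-- the derivative of `φ` -/
noncomputable def φ' (c ε : ℝ) (ζ : ℂ) : ℂ :=
  φ c ε ζ * ((c : ℂ) * (-((1 - ε : ℝ) : ℂ) / u ε ζ))

theorem φ_deriv (c : ℝ) {ε : ℝ} (hε0 : 0 < ε) (hε1 : ε < 1) {ζ : ℂ} (hζ : ‖ζ‖ < 1) :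
    HasDerivAt (φ c ε) (φ' c ε ζ) ζ := by
  have h1 : HasDerivAt (u ε) (-((1 - ε : ℝ) : ℂ)) ζ := by
    have h := ((hasDerivAt_id ζ).const_mul ((1 - ε : ℝ) : ℂ)).const_sub 1
    rw [mul_one] at h
    exact h
  exact ((h1.clog (u_slit hε0 hε1 hζ)).const_mul (c : ℂ)).cexp

theorem φ'_norm (c ε : ℝ) (ζ : ℂ) : Complex.normSq (φ' c ε ζ) = p c ε ζ := by
  rw [φ', map_mul, φ_norm, map_mul, map_div₀, Complex.normSq_neg, Complex.normSq_ofReal,
    Complex.normSq_ofReal, Complex.normSq_eq_norm_sq (u ε ζ), p]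
  ring

theorem fm_hasFDerivAt (c : ℝ) {ε : ℝ} (hε0 : 0 < ε) (hε1 : ε < 1) {z : Fin 2 → ℂ}
    (hz : ‖z 0‖ < 1) :
    HasFDerivAt (fm c ε) (ContinuousLinearMap.pi
      ![(ContinuousLinearMap.proj (R := ℂ) (φ := fun _ : Fin 2 => ℂ) 1),
        (φ' c ε (z 0)) • (ContinuousLinearMap.proj (R := ℂ) (φ := fun _ : Fin 2 => ℂ) 0)]) z := by
  unfold fm
  rw [hasFDerivAt_pi, Fin.forall_fin_two]
  constructor
  · simp only [Matrix.cons_val_zero]
    exact (ContinuousLinearMap.proj (R := ℂ) (φ := fun _ : Fin 2 => ℂ) 1).hasFDerivAt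
  · simp only [Matrix.cons_val_one, Matrix.cons_val_fin_one]
    have h1 : HasFDerivAt (fun z : Fin 2 → ℂ => z 0)
      (ContinuousLinearMap.proj (R := ℂ) (φ := fun _ : Fin 2 => ℂ) 0) z :=
      (ContinuousLinearMap.proj (R := ℂ) (φ := fun _ : Fin 2 => ℂ) 0).hasFDerivAt
    have h2 : HasFDerivAt ((φ c ε) ∘ (fun z : Fin 2 → ℂ => z 0)) ((φ' c ε (z 0)) •
        (ContinuousLinearMap.proj (R := ℂ) (φ := fun _ : Fin 2 => ℂ) 0)) z :=
      HasDerivAt.comp_hasFDerivAt (h₂ := φ c ε) (f := fun z : Fin 2 → ℂ => z 0) z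
        (φ_deriv c hε0 hε1 hz) h1
    exact h2

theorem fm_jac (c : ℝ) {ε : ℝ} (hε0 : 0 < ε) (hε1 : ε < 1) {z : Fin 2 → ℂ}
    (hz : ‖z 0‖ < 1) :
    jac (fm c ε) z = !![0, 1; φ' c ε (z 0), 0] := by
  ext i j
  simp only [jac, Matrix.of_apply]
  rw [(fm_hasFDerivAt c hε0 hε1 hz).fderiv]
  fin_cases i <;> fin_cases j <;> simp

theorem fm_det (c : ℝ) {ε : ℝ} (hε0 : 0 < ε) (hε1 : ε < 1) {z : Fin 2 → ℂ}
    (hz : ‖z 0‖ < 1) :
    (1 + pullback (fm c ε) z).det.re = T c ε (z 0) (z 1) := by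
  have hsum : (∑ l, Complex.normSq (fm c ε z l)) = ‖z 1‖ ^ 2 + b c ε (z 0) := by
    rw [Fin.sum_univ_two]
    simp only [fm, Matrix.cons_val_zero, Matrix.cons_val_one, Matrix.cons_val_fin_one]
    rw [φ_norm, Complex.normSq_eq_norm_sq]
  have hP : φ' c ε (z 0) * (starRingEnd ℂ) (φ' c ε (z 0)) = ((p c ε (z 0) : ℝ) : ℂ) := by
    rw [Complex.mul_conj, φ'_norm]
  have h1 : (1 + pullback (fm c ε) z) =
      !![1 + ((p c ε (z 0) : ℝ) : ℂ) * ((1 / (‖z 1‖ ^ 2 + b c ε (z 0)) : ℝ) : ℂ), 0;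
        0, 1 + ((1 / (‖z 1‖ ^ 2 + b c ε (z 0)) : ℝ) : ℂ)] := by
    rw [← hP, ← hsum]
    ext i j
    simp only [pullback, fm_jac c hε0 hε1 hz, hopfMatrix, Matrix.add_apply, Matrix.mul_apply,
      Fin.sum_univ_two, Matrix.transpose_apply, Matrix.map_apply, Matrix.smul_apply]
    fin_cases i <;> fin_cases j <;> simp <;> ring
  rw [h1, Matrix.det_fin_two_of, T, zero_mul, sub_zero]
  have h2 : (1 + ((p c ε (z 0) : ℝ) : ℂ) * ((1 / (‖z 1‖ ^ 2 + b c ε (z 0)) : ℝ) : ℂ)) *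
      (1 + ((1 / (‖z 1‖ ^ 2 + b c ε (z 0)) : ℝ) : ℂ)) =
      (((1 + 1 / (‖z 1‖ ^ 2 + b c ε (z 0))) *
        (1 + p c ε (z 0) / (‖z 1‖ ^ 2 + b c ε (z 0))) : ℝ) : ℂ) := by
    push_cast
    ring
  rw [h2, Complex.ofReal_re]

theorem slice_eq (c ε : ℝ) (z : Fin 1 → ℂ) :
    slice (j := 1) (k := 1) (fm c ε) z = fun w => ![w 0, φ c ε (z 0)] := by
  ext w i
  have h0 : (Fin.append z w : Fin (1 + 1) → ℂ) 0 = z 0 := Fin.append_left z w 0
  have h1 : (Fin.append z w : Fin (1 + 1) → ℂ) 1 = w 0 := Fin.append_right z w 0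
  show ![(Fin.append z w : Fin (1 + 1) → ℂ) 1,
    φ c ε ((Fin.append z w : Fin (1 + 1) → ℂ) 0)] i = _
  rw [h0, h1]

theorem slice_jac (c ε : ℝ) (z w : Fin 1 → ℂ) :
    jac (slice (j := 1) (k := 1) (fm c ε) z) w = !![1; 0] := by
  rw [slice_eq]
  have hd : HasFDerivAt (fun w : Fin 1 → ℂ => ![w 0, φ c ε (z 0)])
      (ContinuousLinearMap.pi ![
        (ContinuousLinearMap.proj (R := ℂ) (φ := fun _ : Fin 1 => ℂ) 0),
          (0 : (Fin 1 → ℂ) →L[ℂ] ℂ)]) w := by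
    rw [hasFDerivAt_pi, Fin.forall_fin_two]
    constructor
    · simp only [Matrix.cons_val_zero]
      exact (ContinuousLinearMap.proj (R := ℂ) (φ := fun _ : Fin 1 => ℂ) 0).hasFDerivAt
    · simp only [Matrix.cons_val_one, Matrix.cons_val_fin_one]
      exact hasFDerivAt_const _ _
  ext i j
  simp only [jac, Matrix.of_apply]
  rw [hd.fderiv]
  fin_cases i <;> fin_cases j <;> simp

theorem slice_det (c ε : ℝ) (z w : Fin 1 → ℂ) :
    (1 + pullback (slice (j := 1) (k := 1) (fm c ε) z) w).det.re =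
      (1 + 1 / (‖w 0‖ ^ 2 + b c ε (z 0))) * (1 + 0 / (‖w 0‖ ^ 2 + b c ε (z 0))) := by
  have hsum : (∑ l, Complex.normSq (slice (j := 1) (k := 1) (fm c ε) z w l)) =
      ‖w 0‖ ^ 2 + b c ε (z 0) := by
    rw [Fin.sum_univ_two, slice_eq]
    simp only [Matrix.cons_val_zero, Matrix.cons_val_one, Matrix.cons_val_fin_one]
    rw [φ_norm, Complex.normSq_eq_norm_sq]
  have h1 : (1 + pullback (slice (j := 1) (k := 1) (fm c ε) z) w).det =
      ((1 + 1 / (‖w 0‖ ^ 2 + b c ε (z 0)) : ℝ) : ℂ) := by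
    rw [Matrix.det_fin_one]
    simp only [pullback, slice_jac, hopfMatrix, hsum, Matrix.add_apply, Matrix.mul_apply,
      Fin.sum_univ_two, Matrix.transpose_apply, Matrix.map_apply, Matrix.smul_apply]
    simp
  rw [h1, Complex.ofReal_re]
  ring

theorem lintegral_one (U : Set ℂ) (f : ℂ → ℝ≥0∞) :
    ∫⁻ w in {w : Fin 1 → ℂ | w 0 ∈ U}, f (w 0) = ∫⁻ w in U, f w := by
  have hmp := volume_preserving_funUnique (Fin 1) ℂ
  have h2 := hmp.setLIntegral_comp_preimage_emb (MeasurableEquiv.measurableEmbedding _) f U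
  rw [← h2]
  rfl

theorem lintegral_const_Ann (c : ℝ≥0∞) : ∫⁻ _ in Ann 0, c = c * ENNReal.ofReal Real.pi := by
  have := vol_Ann
  rw [setLIntegral_const] at this ⊢
  rw [one_mul] at this
  rw [this]

theorem measurable_u (ε : ℝ) : Measurable (u ε) := by
  unfold u
  fun_prop

theorem measurable_b (c ε : ℝ) : Measurable (b c ε) := by
  have := measurable_u ε
  unfold b
  fun_prop

theorem measurable_p (c ε : ℝ) : Measurable (p c ε) := by
  have := measurable_u ε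
  have := measurable_b c ε
  unfold p
  fun_prop

theorem measurable_T (c ε : ℝ) : Measurable (Function.uncurry fun ζ w : ℂ =>
    ENNReal.ofReal (T c ε ζ w)) := by
  have := measurable_b c ε
  have := measurable_p c ε
  unfold T Function.uncurry
  fun_prop

/-- the total volume -/
theorem total_le (c : ℝ) {ε : ℝ} (hε0 : 0 < ε) (hε1 : ε < 1) (hc0 : 0 < c) (hc1 : c ≤ 1 / 2) :
    ∫⁻ z in Box (Ann 0) (Ann 0), ENNReal.ofReal (T c ε (z 0) (z 1)) ≤
      ENNReal.ofReal (2 * Real.pi) * ENNReal.ofReal Real.pi +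
      ENNReal.ofReal Real.pi * ENNReal.ofReal (16 * Real.pi) +
      ENNReal.ofReal (2 * Real.pi * c ^ 2) *
        ENNReal.ofReal (8 * Real.pi * (Real.log (4 * ε ^ 2 + 4) - Real.log (4 * ε ^ 2))) := by
  have hpi := Real.pi_pos
  rw [lintegral_Box (measurableSet_Ann 0) (measurableSet_Ann 0)
    (fun ζ w => ENNReal.ofReal (T c ε ζ w)) (measurable_T c ε)]
  have h1 : ∀ ζ ∈ Ann 0, ∫⁻ w in Ann 0, ENNReal.ofReal (T c ε ζ w) ≤
      ENNReal.ofReal (2 * Real.pi) + ENNReal.ofReal Real.pi * ENNReal.ofReal (1 / ‖u ε ζ‖) +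
        ENNReal.ofReal (2 * Real.pi * c ^ 2) * ENNReal.ofReal (1 / ‖u ε ζ‖ ^ 2) := by
    intro ζ hζ
    have hb := b_pos c ε ζ
    have hp := p_nonneg c ε ζ
    refine (slice_integral_le (b c ε ζ) (p c ε ζ) hb hp).trans ?_
    obtain ⟨hu, -⟩ := norm_lower hε0 hε1 hζ.2
    have hu0 : 0 < ‖u ε ζ‖ := hε0.trans_le hu
    rw [← ENNReal.ofReal_mul hpi.le, ← ENNReal.ofReal_mul (by positivity),
      ← ENNReal.ofReal_add (by positivity) (by positivity),
      ← ENNReal.ofReal_add (by positivity) (by positivity)]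
    apply ENNReal.ofReal_le_ofReal
    have h2 : 1 / b c ε ζ ≤ 1 + 1 / ‖u ε ζ‖ := by
      rw [b, one_div, ← Real.exp_neg]
      have h3 : -(2 * c * Real.log ‖u ε ζ‖) ≤ max 0 (-Real.log ‖u ε ζ‖) := by
        rcases le_total 0 (Real.log ‖u ε ζ‖) with h | h
        · refine le_trans ?_ (le_max_left _ _)
          have : 0 ≤ 2 * c * Real.log ‖u ε ζ‖ := by positivity
          linarith
        · refine le_trans ?_ (le_max_right _ _)
          nlinarith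
      refine (Real.exp_le_exp.2 h3).trans ?_
      rcases le_total 0 (-Real.log ‖u ε ζ‖) with h | h
      · rw [max_eq_right h, Real.exp_neg, Real.exp_log hu0, one_div]
        linarith
      · rw [max_eq_left h, Real.exp_zero]
        have : 0 ≤ 1 / ‖u ε ζ‖ := by positivity
        linarith
    have h4 : p c ε ζ / b c ε ζ ≤ c ^ 2 * (1 / ‖u ε ζ‖ ^ 2) := by
      have h5 : p c ε ζ / b c ε ζ = (1 - ε) ^ 2 * (c ^ 2 * (1 / ‖u ε ζ‖ ^ 2)) := by
        rw [p]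
        field_simp
      rw [h5]
      refine mul_le_of_le_one_left (by positivity) ?_
      nlinarith
    calc Real.pi * (1 + 1 / b c ε ζ + 2 * (p c ε ζ / b c ε ζ)) ≤
        Real.pi * (1 + (1 + 1 / ‖u ε ζ‖) + 2 * (c ^ 2 * (1 / ‖u ε ζ‖ ^ 2))) :=
          mul_le_mul_of_nonneg_left (by linarith) hpi.le
      _ = _ := by ring
  refine (setLIntegral_mono' (measurableSet_Ann 0) h1).trans ?_
  have hm := measurable_u ε
  have hm1 : Measurable fun ζ : ℂ => ENNReal.ofReal (1 / ‖u ε ζ‖) := by fun_prop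
  have hm2 : Measurable fun ζ : ℂ => ENNReal.ofReal (1 / ‖u ε ζ‖ ^ 2) := by fun_prop
  rw [lintegral_add_right _ (hm2.const_mul _), lintegral_add_right _ (hm1.const_mul _),
    lintegral_const_mul _ hm2, lintegral_const_mul _ hm1, lintegral_const_Ann]
  gcongr
  · exact int_u hε0 hε1
  · exact int_u_sq hε0 hε1

theorem polydisc_two : polydisc (1 + 1) = Box (Ann 0) (Ann 0) := by
  ext z
  have h : (∀ i : Fin (1 + 1), ‖z i‖ < 1) ↔ ‖z 0‖ < 1 ∧ ‖z 1‖ < 1 := Fin.forall_fin_two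
  constructor
  · intro hz
    have := h.1 hz
    exact ⟨⟨norm_nonneg _, this.1⟩, ⟨norm_nonneg _, this.2⟩⟩
  · intro hz
    exact h.2 ⟨hz.1.2, hz.2.2⟩

theorem measurableSet_Box {U V : Set ℂ} (hU : MeasurableSet U) (hV : MeasurableSet V) :
    MeasurableSet (Box U V) :=
  ((measurable_pi_apply 0) hU).inter ((measurable_pi_apply 1) hV)

/-- the volume of the whole graph -/
theorem graphVol_le (N : ℕ) (hN : 2 ≤ N) {c ε : ℝ} (hc : c = 1 / N)
    (hε : ε = Real.exp (-(N : ℝ) ^ 2)) :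
    graphVol (fm c ε) (polydisc (1 + 1)) ≤ ENNReal.ofReal (132 * Real.pi ^ 2) := by
  have hpi := Real.pi_pos
  have hN' : (2 : ℝ) ≤ N := by exact_mod_cast hN
  have hε0 : 0 < ε := hε ▸ Real.exp_pos _
  have hε1 : ε < 1 := by
    rw [hε, Real.exp_lt_one_iff]
    have : (0 : ℝ) < (N : ℝ) ^ 2 := by positivity
    linarith
  have hc0 : 0 < c := by rw [hc]; positivity
  have hc1 : c ≤ 1 / 2 := by
    rw [hc]
    exact one_div_le_one_div_of_le two_pos hN'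
  have hlogε : Real.log ε = -(N : ℝ) ^ 2 := by rw [hε, Real.log_exp]
  rw [graphVol, polydisc_two]
  have hfac : ((1 + 1).factorial : ℝ≥0∞) = ENNReal.ofReal 2 := by norm_num [Nat.factorial]
  rw [hfac]
  have h1 : ∫⁻ z in Box (Ann 0) (Ann 0), ENNReal.ofReal (1 + pullback (fm c ε) z).det.re =
      ∫⁻ z in Box (Ann 0) (Ann 0), ENNReal.ofReal (T c ε (z 0) (z 1)) := by
    refine setLIntegral_congr_fun
      (measurableSet_Box (measurableSet_Ann 0) (measurableSet_Ann 0)) fun z hz => ?_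
    rw [fm_det c hε0 hε1 hz.1.2]
  rw [h1]
  have h2 := total_le c hε0 hε1 hc0 hc1
  have hlog : Real.log (4 * ε ^ 2 + 4) - Real.log (4 * ε ^ 2) ≤ 1 + 2 * (N : ℝ) ^ 2 := by
    have h3 : Real.log (4 * ε ^ 2 + 4) ≤ Real.log (4 * 2) := by
      apply Real.log_le_log (by positivity)
      nlinarith
    have h4 : Real.log (4 * 2) = Real.log 4 + Real.log 2 :=
      Real.log_mul (by norm_num) (by norm_num)
    have h5 : Real.log (4 * ε ^ 2) = Real.log 4 + 2 * Real.log ε := by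
      rw [Real.log_mul (by norm_num) (by positivity), Real.log_pow]
      push_cast
      ring
    have h6 : Real.log 2 ≤ 1 := by
      have := Real.log_two_lt_d9
      linarith
    rw [h5, hlogε]
    linarith
  have hlog0 : 0 ≤ Real.log (4 * ε ^ 2 + 4) - Real.log (4 * ε ^ 2) := by
    have := Real.log_le_log (show 0 < 4 * ε ^ 2 by positivity)
      (show 4 * ε ^ 2 ≤ 4 * ε ^ 2 + 4 by linarith)
    linarith
  have h7 : ENNReal.ofReal (2 * Real.pi) * ENNReal.ofReal Real.pi +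
      ENNReal.ofReal Real.pi * ENNReal.ofReal (16 * Real.pi) +
      ENNReal.ofReal (2 * Real.pi * c ^ 2) *
        ENNReal.ofReal (8 * Real.pi * (Real.log (4 * ε ^ 2 + 4) - Real.log (4 * ε ^ 2))) ≤
      ENNReal.ofReal (66 * Real.pi ^ 2) := by
    rw [← ENNReal.ofReal_mul (by positivity), ← ENNReal.ofReal_mul (by positivity),
      ← ENNReal.ofReal_mul (by positivity), ← ENNReal.ofReal_add (by positivity) (by positivity),
      ← ENNReal.ofReal_add (by positivity) (by positivity)]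
    apply ENNReal.ofReal_le_ofReal
    have h8 : c ^ 2 * (Real.log (4 * ε ^ 2 + 4) - Real.log (4 * ε ^ 2)) ≤ 3 := by
      have h9 : c ^ 2 * (Real.log (4 * ε ^ 2 + 4) - Real.log (4 * ε ^ 2)) ≤
          c ^ 2 * (1 + 2 * (N : ℝ) ^ 2) := mul_le_mul_of_nonneg_left hlog (by positivity)
      have h10 : c ^ 2 * (N : ℝ) ^ 2 = 1 := by
        rw [hc]
        have : (N : ℝ) ≠ 0 := by positivity
        field_simp
      have h11 : c ^ 2 ≤ 1 := by nlinarith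
      nlinarith
    have h12 := mul_le_mul_of_nonneg_left h8 (show 0 ≤ 16 * Real.pi ^ 2 by positivity)
    nlinarith
  calc ENNReal.ofReal 2 * ∫⁻ z in Box (Ann 0) (Ann 0), ENNReal.ofReal (T c ε (z 0) (z 1)) ≤
      ENNReal.ofReal 2 * ENNReal.ofReal (66 * Real.pi ^ 2) := by
        gcongr
        exact h2.trans h7
    _ = ENNReal.ofReal (132 * Real.pi ^ 2) := by
        rw [← ENNReal.ofReal_mul two_pos.le]
        congr 1
        ring

/-- the part of a slice over the annulus -/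
theorem slice_shell_le (c ε r : ℝ) (hr0 : 0 < r) (z : Fin 1 → ℂ) :
    graphVol (slice (j := 1) (k := 1) (fm c ε) z) (shell 1 r) ≤
      ENNReal.ofReal ((1 + 1 / r ^ 2) * Real.pi) := by
  rw [graphVol]
  simp only [slice_det, Nat.factorial_one, Nat.cast_one, one_mul]
  have h1 : shell 1 r ⊆ {w : Fin 1 → ℂ | w 0 ∈ Ann r} := by
    intro w hw
    have h2 : ¬ ‖w 0‖ ≤ r := by
      intro h
      apply hw.2
      intro i
      rw [Subsingleton.elim i 0]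
      exact h
    exact ⟨(not_le.1 h2).le, hw.1 0⟩
  refine (lintegral_mono_set h1).trans ?_
  rw [lintegral_one (Ann r) (fun w => ENNReal.ofReal
    ((1 + 1 / (‖w‖ ^ 2 + b c ε (z 0))) * (1 + 0 / (‖w‖ ^ 2 + b c ε (z 0)))))]
  have h3 : ∀ w ∈ Ann r, ENNReal.ofReal
      ((1 + 1 / (‖w‖ ^ 2 + b c ε (z 0))) * (1 + 0 / (‖w‖ ^ 2 + b c ε (z 0)))) ≤
      ENNReal.ofReal (1 + 1 / r ^ 2) := by
    intro w hw
    apply ENNReal.ofReal_le_ofReal
    rw [zero_div, add_zero, mul_one]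
    have hb := b_pos c ε (z 0)
    have h4 : r ^ 2 ≤ ‖w‖ ^ 2 := pow_le_pow_left₀ hr0.le hw.1 2
    have h5 : 1 / (‖w‖ ^ 2 + b c ε (z 0)) ≤ 1 / r ^ 2 :=
      one_div_le_one_div_of_le (by positivity) (by linarith)
    linarith
  refine (setLIntegral_mono' (measurableSet_Ann r) h3).trans ?_
  have h6 : Ann r ⊆ Ann 0 := fun w hw => ⟨norm_nonneg _, hw.2⟩
  refine (lintegral_mono_set h6).trans ?_
  rw [lintegral_const_Ann, ← ENNReal.ofReal_mul (by positivity)]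

/-- the slice at `z = ρ` is large -/
theorem slice_lower (N : ℕ) (hN : 2 ≤ N) {c ε : ℝ} (hc : c = 1 / N)
    (hε : ε = Real.exp (-(N : ℝ) ^ 2)) :
    ENNReal.ofReal N ≤ graphVol (slice (j := 1) (k := 1) (fm c ε)
      (fun _ => ((1 - ε : ℝ) : ℂ))) (polydisc 1) := by
  have hpi := Real.pi_gt_three
  have hN' : (2 : ℝ) ≤ N := by exact_mod_cast hN
  have hε0 : 0 < ε := hε ▸ Real.exp_pos _
  have hε1 : ε < 1 := by
    rw [hε, Real.exp_lt_one_iff]
    have : (0 : ℝ) < (N : ℝ) ^ 2 := by positivity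
    linarith
  have hc0 : 0 < c := by rw [hc]; positivity
  have hlogε : Real.log ε = -(N : ℝ) ^ 2 := by rw [hε, Real.log_exp]
  rw [graphVol]
  simp only [slice_det, Nat.factorial_one, Nat.cast_one, one_mul]
  have h1 : polydisc 1 = {w : Fin 1 → ℂ | w 0 ∈ Ann 0} := by
    ext w
    simp [polydisc, Ann]
  rw [h1, lintegral_one (Ann 0) (fun w => ENNReal.ofReal
    ((1 + 1 / (‖w‖ ^ 2 + b c ε ((1 - ε : ℝ) : ℂ))) *
      (1 + 0 / (‖w‖ ^ 2 + b c ε ((1 - ε : ℝ) : ℂ)))))]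
  have hb := b_pos c ε ((1 - ε : ℝ) : ℂ)
  rw [slice_integral _ 0 hb le_rfl]
  apply ENNReal.ofReal_le_ofReal
  have hu : ‖u ε ((1 - ε : ℝ) : ℂ)‖ = 1 - (1 - ε) ^ 2 := by
    have h2 : u ε ((1 - ε : ℝ) : ℂ) = ((1 - (1 - ε) ^ 2 : ℝ) : ℂ) := by
      rw [u]
      push_cast
      ring
    rw [h2, Complex.norm_real, Real.norm_eq_abs, abs_of_pos]
    nlinarith
  have h3 : Real.log (b c ε ((1 - ε : ℝ) : ℂ)) ≤ 2 * c * (1 - (N : ℝ) ^ 2) := by
    rw [b, Real.log_exp, hu]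
    refine mul_le_mul_of_nonneg_left ?_ (by positivity)
    have h4 : Real.log (1 - (1 - ε) ^ 2) ≤ Real.log (2 * ε) := by
      apply Real.log_le_log (by nlinarith)
      nlinarith
    rw [Real.log_mul (by norm_num) hε0.ne', hlogε] at h4
    have h6 : Real.log 2 ≤ 1 := by
      have := Real.log_two_lt_d9
      linarith
    linarith
  have h5 : 0 ≤ Real.log (1 + b c ε ((1 - ε : ℝ) : ℂ)) := Real.log_nonneg (by linarith)
  have h6 : 2 * c * (1 - (N : ℝ) ^ 2) = 2 / N - 2 * N := by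
    rw [hc]
    have : (N : ℝ) ≠ 0 := by positivity
    field_simp
  have h7 : 2 / (N : ℝ) ≤ 1 := by
    rw [div_le_one (by positivity)]
    exact hN'
  nlinarith

/-- **Q1 has a negative answer** for the Hopf surface `X = (ℂ² ∖ 0)/(v ~ 2v)` with the metric
`∑ |dv_l|² / |v|²`, `n = 2`, `k = 1` and every `0 < r < 1`: there are finite constants `R₀` and `a`
such that for every `R ≥ R₀` the class `F_R` contains maps `f : Δ² → X` whose graphs have volume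
at most `a` and for which the graph of the restriction to some disc `{z} × Δ`, `z ∈ Δ`, has
arbitrarily large area. -/
theorem result (r : ℝ) (hr0 : 0 < r) (hr1 : r < 1) :
    ∃ R₀ a : ℝ≥0∞, R₀ ≠ ⊤ ∧ a ≠ ⊤ ∧ ∀ R : ℝ≥0∞, R₀ ≤ R → ∀ L : ℝ≥0∞, L ≠ ⊤ →
      ∃ f : (Fin (1 + 1) → ℂ) → (Fin 2 → ℂ), InClass 1 1 2 r R f ∧
        graphVol f (polydisc (1 + 1)) ≤ a ∧
        ∃ z ∈ polydisc 1, L < graphVol (slice f z) (polydisc 1) := by
  refine ⟨ENNReal.ofReal (132 * Real.pi ^ 2) + ENNReal.ofReal ((1 + 1 / r ^ 2) * Real.pi),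
    ENNReal.ofReal (132 * Real.pi ^ 2), ENNReal.add_ne_top.2
      ⟨ENNReal.ofReal_ne_top, ENNReal.ofReal_ne_top⟩, ENNReal.ofReal_ne_top, ?_⟩
  intro R hR L hL
  obtain ⟨M, hM⟩ := exists_nat_gt L.toReal
  obtain ⟨N, hNdef⟩ : ∃ N : ℕ, N = M + 2 := ⟨_, rfl⟩
  have hN : 2 ≤ N := by omega
  have hN' : (2 : ℝ) ≤ N := by exact_mod_cast hN
  have hML : L.toReal < N := by
    refine hM.trans_le ?_
    rw [hNdef]
    push_cast
    linarith
  obtain ⟨c, hc⟩ : ∃ c : ℝ, c = 1 / N := ⟨_, rfl⟩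
  obtain ⟨ε, hε⟩ : ∃ ε : ℝ, ε = Real.exp (-(N : ℝ) ^ 2) := ⟨_, rfl⟩
  have hε0 : 0 < ε := hε ▸ Real.exp_pos _
  have hε1 : ε < 1 := by
    rw [hε, Real.exp_lt_one_iff]
    have : (0 : ℝ) < (N : ℝ) ^ 2 := by positivity
    linarith
  have htot := graphVol_le N hN hc hε
  refine ⟨fm c ε, ⟨?_, ?_, ?_, ?_⟩, htot, fun _ => ((1 - ε : ℝ) : ℂ), ?_, ?_⟩
  · intro z hz
    exact (fm_hasFDerivAt c hε0 hε1 (hz 0)).differentiableAt.differentiableWithinAt
  · intro z _ h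
    have h1 := congrFun h 1
    exact φ_ne c ε (z 0) h1
  · refine le_trans ?_ (le_trans le_self_add hR)
    refine le_trans ?_ htot
    rw [graphVol, graphVol]
    gcongr
    exact fun w hw => hw.1
  · intro z _
    refine le_trans ?_ (le_trans le_add_self hR)
    exact slice_shell_le c ε r hr0 z
  · intro i
    rw [Complex.norm_real, Real.norm_eq_abs, abs_of_pos (by linarith)]
    linarith
  · refine lt_of_lt_of_le ?_ (slice_lower N hN hc hε)
    rw [← ENNReal.ofReal_toReal hL]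
    exact (ENNReal.ofReal_lt_ofReal_iff (by positivity)).2 hML

end Pool.Agent.Results.MP_c848f8_an.HopfSlices
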